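import Pool.Agent.Helper77.GS.Defs

/-!
# GS: change of the ground field
-/

set_option autoImplicit false

namespace Pool.Agent.GS

open MvPolynomial

universe u

/-- the equations over the larger field `F` -/
noncomputable def ext {k : Type u} (F : Type u) [Field k] [Field F] [Algebra k F] {N : ℕ}
    (I : Set (MvPolynomial (Fin (N + 1)) k)) : Set (MvPolynomial (Fin (N + 1)) F) :=
  MvPolynomial.map (algebraMap k F) '' I

theorem homog_ext {k F : Type u} [Field k] [Field F] [Algebra k F] {N : ℕ}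
    {I : Set (MvPolynomial (Fin (N + 1)) k)} (hI : Homog I) : Homog (ext F I) := by
  rintro _ ⟨f, hf, rfl⟩
  obtain ⟨d, hd⟩ := hI f hf
  exact ⟨d, hd.map (algebraMap k F)⟩

theorem onX_ext {k F K : Type u} [Field k] [Field F] [Field K] [Algebra k F] [Algebra F K] [Algebra k K]
    [IsScalarTower k F K] {N : ℕ} (I : Set (MvPolynomial (Fin (N + 1)) k)) (y : Fin (N + 1) → K) :
    OnX (ext F I) y ↔ OnX I y := by
  constructor
  · intro h f hf
    have := h _ ⟨f, hf, rfl⟩
    rwa [aeval_map_algebraMap] at this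
  · rintro h _ ⟨f, hf, rfl⟩
    rw [aeval_map_algebraMap]
    exact h f hf

theorem lin_ext {k F K : Type u} [Field k] [Field F] [Field K] [Algebra k F] [Algebra F K] [Algebra k K]
    [IsScalarTower k F K] {N : ℕ} (ℓ : Fin (N + 1) → k) (y : Fin (N + 1) → K) :
    lin (fun j => algebraMap k F (ℓ j)) y = lin ℓ y := by
  unfold lin
  refine Finset.sum_congr rfl fun j _ => ?_
  rw [← IsScalarTower.algebraMap_apply]

theorem uu_ext {k F K : Type u} [Field k] [Field F] [Field K] [Algebra k F] [Algebra F K] [Algebra k K]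
    [IsScalarTower k F K] {N q r : ℕ} (ℓ : Fin q → Fin (N + 1) → k) (y : Fin r → Fin (N + 1) → K) :
    uu (fun i j => algebraMap k F (ℓ i j)) y = uu ℓ y := by
  funext i
  unfold uu
  exact Finset.prod_congr rfl fun σ _ => lin_ext (ℓ i) (y σ)

theorem gp_ext {k F : Type u} [Field k] [Field F] [Algebra k F] {N n q : ℕ}
    {I : Set (MvPolynomial (Fin (N + 1)) k)} {ℓ : Fin q → Fin (N + 1) → k} (h : GP k I ℓ n) :
    GP F (ext F I) (fun i j => algebraMap k F (ℓ i j)) n := by
  intro K _ _ y hy hy0 s hs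
  letI : Algebra k K := ((algebraMap F K).comp (algebraMap k F)).toAlgebra
  haveI : IsScalarTower k F K := IsScalarTower.of_algebraMap_eq fun _ => rfl
  refine h K y ((onX_ext I y).1 hy) hy0 s fun i hi => ?_
  rw [← lin_ext (F := F)]
  exact hs i hi

theorem bad_ext {k F : Type u} [Field k] [Field F] [Algebra k F] {N q : ℕ}
    {I : Set (MvPolynomial (Fin (N + 1)) k)} {r : ℕ} {A V : Finset (Fin q)} {ι : Fin q → Fin q}
    {ℓ : Fin q → Fin (N + 1) → F} (h : Bad (ext F I) r A V ι ℓ) : Bad I r A V ι ℓ := by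
  obtain ⟨σ₀, x, c, h1, h2⟩ := h
  exact ⟨σ₀, x, c, fun i hi σ => (onX_ext I (x i σ)).1 (h1 i hi σ), h2⟩

end Pool.Agent.GS
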