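import Pool.Agent.Helper77.GS.Defs

/-!
# GS, block N: Nullstellensatz
-/

set_option autoImplicit false

namespace Pool.Agent.GS

open MvPolynomial

universe u

/-- `k`, `E` algebraically closed extension of `k`: a point over an extension `K` of `k` specialises to a point over `E`. -/
theorem nst_ext {k K E : Type*} [Field k] [Field K] [Algebra k K] [Field E] [IsAlgClosed E] [Algebra k E]
    {τ : Type*} [Finite τ] (t : τ → K) :
    ∃ t' : τ → E, ∀ f : MvPolynomial τ k, aeval t f = 0 → aeval t' f = 0 := by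
  have hI : RingHom.ker (aeval t : MvPolynomial τ k →ₐ[k] K) ≠ ⊤ := RingHom.ker_ne_top _
  obtain ⟨M, hM, hIM⟩ := Ideal.exists_le_maximal _ hI
  obtain ⟨x, hx⟩ := eq_vanishingIdeal_singleton_of_isMaximal E hM
  refine ⟨x, fun f hf => ?_⟩
  have h1 : f ∈ M := hIM (by rw [RingHom.mem_ker]; exact hf)
  rw [hx, mem_vanishingIdeal_singleton_iff] at h1
  exact h1

theorem nst {F K : Type u} [Field F] [IsAlgClosed F] [Field K] [Algebra F K] {τ : Type} [Finite τ]
    (t : τ → K) : ∃ t' : τ → F, ∀ f : MvPolynomial τ F, aeval t f = 0 → aeval t' f = 0 :=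
  nst_ext t

theorem aeval_some {k L : Type*} [Field k] [Field L] [Algebra k L] {τ : Type*} (s : Option τ → L)
    (f : MvPolynomial τ k) : aeval s (rename some f) = aeval (fun i => s (some i)) f := by
  rw [aeval_rename]
  rfl

/-- with a polynomial which does not vanish -/
theorem nst_ne {k K E : Type*} [Field k] [Field K] [Algebra k K] [Field E] [IsAlgClosed E] [Algebra k E]
    {τ : Type*} [Finite τ] (t : τ → K) (Q : MvPolynomial τ k) (hQ : aeval t Q ≠ 0) :
    ∃ t' : τ → E, (∀ f : MvPolynomial τ k, aeval t f = 0 → aeval t' f = 0) ∧ aeval t' Q ≠ 0 := by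
  obtain ⟨t', ht'⟩ := nst_ext (k := k) (E := E) (τ := Option τ) (fun o => o.elim (aeval t Q)⁻¹ t)
  refine ⟨fun i => t' (some i), fun f hf => ?_, fun h => ?_⟩
  · rw [← aeval_some]
    apply ht'
    rw [aeval_some]
    exact hf
  · have h1 := ht' (X none * rename some Q - 1) (by
      rw [map_sub, map_mul, aeval_X, aeval_some, map_one]
      show (aeval t Q)⁻¹ * aeval t Q - 1 = 0
      rw [inv_mul_cancel₀ hQ, sub_self])
    rw [map_sub, map_mul, aeval_X, aeval_some, map_one, h, mul_zero, zero_sub, neg_eq_zero] at h1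
    exact one_ne_zero h1

end Pool.Agent.GS
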