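import Mathlib

/-!
# GS, block C, the bottom: the combinatorics of the last step

`Z` the set of the indices `i` with `u i ≠ 0` when `x₁` is generic on a line, `V b` (`b ∈ Z`) the same set after the specialisation of `x₁`
to the hyperplane `b`; `rel m`: `m` is a relation (`∏ u i ^ m i` is constant, `∑ m = 0`, support in `Z`). `hs`: the place gives `∑ m i a i = 0`
with `a i = 0` for `i ∈ V b` and `a i > 0` for the other `i ∈ Z`.
-/

set_option autoImplicit false

namespace Pool.Agent.GS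

section

variable {q : ℕ} {Z : Finset (Fin q)} {V : Fin q → Finset (Fin q)} {rel : (Fin q → ℤ) → Prop}

/-- two indices with a relation are in the same sets `V b` -/
theorem same_class (hneg : ∀ m, rel m → rel (-m)) (hsum : ∀ m, rel m → ∑ i, m i = 0)
    (hs : ∀ b ∈ Z, ∀ m, rel m → (∀ i, i ∉ V b → 0 ≤ m i) → ∀ i, i ∉ V b → m i = 0)
    {b : Fin q} (hb : b ∈ Z) {i j : Fin q} {m : Fin q → ℤ} (hm : rel m) (hm0 : m ≠ 0)
    (hsup : ∀ l, m l ≠ 0 → l = i ∨ l = j) (hi : i ∈ V b) : j ∈ V b := by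
  by_contra hj
  have hij : i ≠ j := fun h => hj (h ▸ hi)
  have key : ∀ m : Fin q → ℤ, rel m → (∀ l, m l ≠ 0 → l = i ∨ l = j) → 0 ≤ m j → m = 0 := by
    intro m hm hsup h0
    have h1 : ∀ l, l ∉ V b → m l = 0 := hs b hb m hm (by
      intro l hl
      by_cases h : m l = 0
      · rw [h]
      · rcases hsup l h with rfl | rfl
        · exact absurd hi hl
        · exact h0)
    have hj0 : m j = 0 := h1 j hj
    have h2 : ∀ l, l ≠ i → m l = 0 := by
      intro l hl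
      by_contra h
      rcases hsup l h with h' | h'
      · exact hl h'
      · rw [h'] at h; exact h hj0
    have h3 := hsum m hm
    rw [Finset.sum_eq_single i (fun l _ hl => h2 l hl) (fun h => absurd (Finset.mem_univ _) h)] at h3
    funext l
    by_cases hl : l = i
    · rw [hl, h3]; rfl
    · exact h2 l hl
  rcases le_total 0 (m j) with h | h
  · exact hm0 (key m hm hsup h)
  · have h1 := key (-m) (hneg m hm) (by
      intro l hl
      apply hsup
      intro h'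
      apply hl
      rw [Pi.neg_apply, h', neg_zero]) (by
      rw [Pi.neg_apply]
      omega)
    apply hm0
    rw [← neg_neg m, h1, neg_zero]

/-- the argument with three indices -/
theorem three (hneg : ∀ m, rel m → rel (-m)) (hsum : ∀ m, rel m → ∑ i, m i = 0)
    (hs : ∀ b ∈ Z, ∀ m, rel m → (∀ i, i ∉ V b → 0 ≤ m i) → ∀ i, i ∉ V b → m i = 0)
    {b₁ b₂ b : Fin q} (hb₁ : b₁ ∈ Z) (hb₂ : b₂ ∈ Z) (hb : b ∈ Z) {i j l : Fin q} {m : Fin q → ℤ}
    (hm : rel m) (hm0 : m ≠ 0) (hsup : ∀ t, m t ≠ 0 → t = i ∨ t = j ∨ t = l)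
    (hi1 : i ∈ V b₁) (hj1 : j ∉ V b₁) (hl1 : l ∉ V b₁) (hj2 : j ∈ V b₂) (hi2 : i ∉ V b₂) (hl2 : l ∉ V b₂)
    (hl : l ∈ V b) (hi : i ∉ V b) : False := by
  have hij : i ≠ j := fun h => hj1 (h ▸ hi1)
  have hil : i ≠ l := fun h => hl1 (h ▸ hi1)
  have hjl : j ≠ l := fun h => hl2 (h ▸ hj2)
  have key : ∀ m : Fin q → ℤ, rel m → m ≠ 0 → (∀ t, m t ≠ 0 → t = i ∨ t = j ∨ t = l) → 0 ≤ m l → False := by
    intro m hm hm0 hsup hml
    have hm0' : m i ≠ 0 ∨ m j ≠ 0 ∨ m l ≠ 0 := by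
      by_contra hcon
      push Not at hcon
      apply hm0
      funext t
      by_contra ht
      rcases hsup t ht with h | h | h
      · rw [h] at ht; exact ht hcon.1
      · rw [h] at ht; exact ht hcon.2.1
      · rw [h] at ht; exact ht hcon.2.2
    have hs3 : m i + m j + m l = 0 := by
      have h1 := hsum m hm
      have h2 : ∑ t, m t = ∑ t ∈ ({i, j, l} : Finset (Fin q)), m t := by
        symm
        apply Finset.sum_subset (Finset.subset_univ _)
        intro t _ ht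
        by_contra h
        apply ht
        rw [Finset.mem_insert, Finset.mem_insert, Finset.mem_singleton]
        exact hsup t h
      rw [h2, Finset.sum_insert (by simp [hij, hil]), Finset.sum_insert (by simp [hjl]),
        Finset.sum_singleton] at h1
      omega
    -- the first place: `m j`, `m l`
    have h1 : m j < 0 ∨ (m j = 0 ∧ m l = 0) := by
      by_contra hcon
      push Not at hcon
      have h2 : ∀ t, t ∉ V b₁ → m t = 0 := hs b₁ hb₁ m hm (by
        intro t ht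
        by_cases h : m t = 0
        · rw [h]
        · rcases hsup t h with rfl | rfl | rfl
          · exact absurd hi1 ht
          · exact hcon.1
          · exact hml)
      exact hcon.2 (h2 j hj1) (h2 l hl1)
    have h2 : m i < 0 ∨ (m i = 0 ∧ m l = 0) := by
      by_contra hcon
      push Not at hcon
      have h2 : ∀ t, t ∉ V b₂ → m t = 0 := hs b₂ hb₂ m hm (by
        intro t ht
        by_cases h : m t = 0
        · rw [h]
        · rcases hsup t h with rfl | rfl | rfl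
          · exact hcon.1
          · exact absurd hj2 ht
          · exact hml)
      exact hcon.2 (h2 i hi2) (h2 l hl2)
    have h3 : m i < 0 ∧ m j < 0 := by omega
    have h4 := hs b hb (-m) (hneg m hm) (by
      intro t ht
      rw [Pi.neg_apply]
      by_cases h : m t = 0
      · rw [h, neg_zero]
      · rcases hsup t h with rfl | rfl | rfl
        · omega
        · omega
        · exact absurd hl ht) i hi
    rw [Pi.neg_apply] at h4
    omega
  rcases le_total 0 (m l) with h | h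
  · exact key m hm hm0 hsup h
  · refine key (-m) (hneg m hm) (fun h' => hm0 ?_) (fun t ht => hsup t fun h' => ht ?_) ?_
    · rw [← neg_neg m, h', neg_zero]
    · rw [Pi.neg_apply, h', neg_zero]
    · rw [Pi.neg_apply]
      omega

/-- The bottom: `Z`, `V b` as above, any three elements of `Z` and any two elements of `V b` support a nonzero relation. -/
theorem bottom (hZ : Z.Nonempty) (hVZ : ∀ b ∈ Z, V b ⊆ Z) (hbV : ∀ b ∈ Z, b ∉ V b)
    (hV0 : ∀ b ∈ Z, (V b).Nonempty) (hneg : ∀ m, rel m → rel (-m)) (hsum : ∀ m, rel m → ∑ i, m i = 0)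
    (hs : ∀ b ∈ Z, ∀ m, rel m → (∀ i, i ∉ V b → 0 ≤ m i) → ∀ i, i ∉ V b → m i = 0)
    (h2 : ∀ b ∈ Z, ∀ i ∈ V b, ∀ j ∈ V b, i ≠ j → ∃ m, rel m ∧ m ≠ 0 ∧ ∀ t, m t ≠ 0 → t = i ∨ t = j)
    (h3 : ∀ i ∈ Z, ∀ j ∈ Z, ∀ l ∈ Z, i ≠ j → i ≠ l → j ≠ l →
      ∃ m, rel m ∧ m ≠ 0 ∧ ∀ t, m t ≠ 0 → t = i ∨ t = j ∨ t = l) :
    ∃ (U : Finset (Fin q)) (ι : Fin q → Fin q), U.Nonempty ∧ U ⊆ Z ∧ U.image ι ⊆ Z ∧
      Disjoint U (U.image ι) ∧ Set.InjOn ι U ∧ ∀ b ∈ U, V b = U.image ι := by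
  classical
  -- elements of the same class
  have hcl : ∀ b ∈ Z, ∀ b' ∈ Z, ∀ i ∈ V b', ∀ j ∈ V b', i ∈ V b → j ∈ V b := by
    intro b hb b' hb' i hi j hj hib
    by_cases hij : i = j
    · rw [← hij]; exact hib
    · obtain ⟨m, hm, hm0, hsup⟩ := h2 b' hb' i hi j hj hij
      exact same_class hneg hsum hs hb hm hm0 hsup hib
  -- `b ∈ V b'` gives disjoint sets
  have hdis : ∀ b' ∈ Z, ∀ b ∈ V b', ∀ l, l ∈ V b → l ∉ V b' := by
    intro b' hb' b hb l hl hl'
    exact hbV b (hVZ b' hb' hb) (hcl b (hVZ b' hb' hb) b' hb' l hl' b hb hl)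
  -- the main step
  have hmain : ∀ b₁ ∈ Z, ∀ b₂ ∈ Z, (∀ l, l ∈ V b₁ → l ∉ V b₂) → ∀ b ∈ V b₁, V b = V b₂ := by
    intro b₁ hb₁ b₂ hb₂ hd b hb
    have hbZ : b ∈ Z := hVZ b₁ hb₁ hb
    have hsub : V b ⊆ V b₂ := by
      intro l hl
      by_contra hl2
      obtain ⟨j, hj⟩ := hV0 b₂ hb₂
      have hj1 : j ∉ V b₁ := fun h => hd j h hj
      have hl1 : l ∉ V b₁ := hdis b₁ hb₁ b hb l hl
      have hbj : b ≠ j := fun h => hj1 (h ▸ hb)
      have hbl : b ≠ l := fun h => hl1 (h ▸ hb)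
      have hjl : j ≠ l := fun h => hl2 (h ▸ hj)
      obtain ⟨m, hm, hm0, hsup⟩ := h3 b hbZ j (hVZ b₂ hb₂ hj) l (hVZ b hbZ hl) hbj hbl hjl
      exact three hneg hsum hs hb₁ hb₂ hbZ hm hm0 hsup hb hj1 hl1 hj (hd b hb) hl2 hl (hbV b hbZ)
    refine Finset.Subset.antisymm hsub fun j hj => ?_
    obtain ⟨l, hl⟩ := hV0 b hbZ
    exact hcl b hbZ b₂ hb₂ l (hsub hl) j hj hl
  obtain ⟨b₁, hb₁⟩ := hZ
  obtain ⟨b₂, hb₂⟩ := hV0 b₁ hb₁
  have hb₂Z := hVZ b₁ hb₁ hb₂
  have hd : ∀ l, l ∈ V b₁ → l ∉ V b₂ := fun l hl hl' => hdis b₁ hb₁ b₂ hb₂ l hl' hl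
  have hd' : ∀ l, l ∈ V b₂ → l ∉ V b₁ := fun l hl hl' => hd l hl' hl
  have h12 := hmain b₁ hb₁ b₂ hb₂Z hd
  have h21 := hmain b₂ hb₂Z b₁ hb₁ hd'
  -- a general end
  have fin : ∀ X Y : Finset (Fin q), X ⊆ Z → Y ⊆ Z → Y.Nonempty → (∀ l ∈ X, l ∉ Y) → Y.card ≤ X.card →
      (∀ b ∈ X, V b = Y) → ∃ (U : Finset (Fin q)) (ι : Fin q → Fin q), U.Nonempty ∧ U ⊆ Z ∧
        U.image ι ⊆ Z ∧ Disjoint U (U.image ι) ∧ Set.InjOn ι U ∧ ∀ b ∈ U, V b = U.image ι := by
    intro X Y hX hY hY0 hXY hcard hV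
    obtain ⟨U, hUX, hUc⟩ := Finset.exists_subset_card_eq hcard
    have e : U ≃ Y := Fintype.equivOfCardEq (by rw [Fintype.card_coe, Fintype.card_coe, hUc])
    let ι : Fin q → Fin q := fun i => if h : i ∈ U then (e ⟨i, h⟩ : Fin q) else i
    have hι : ∀ i (h : i ∈ U), ι i = (e ⟨i, h⟩ : Fin q) := fun i h => dif_pos h
    have him : U.image ι = Y := by
      ext y
      rw [Finset.mem_image]
      constructor
      · rintro ⟨i, hi, rfl⟩
        rw [hι i hi]
        exact (e ⟨i, hi⟩).2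
      · intro hy
        refine ⟨(e.symm ⟨y, hy⟩ : Fin q), (e.symm ⟨y, hy⟩).2, ?_⟩
        rw [hι _ (e.symm ⟨y, hy⟩).2]
        simp
    refine ⟨U, ι, ?_, hUX.trans hX, ?_, ?_, ?_, ?_⟩
    · rw [← Finset.card_pos, hUc, Finset.card_pos]
      exact hY0
    · rw [him]; exact hY
    · rw [him, Finset.disjoint_left]
      exact fun l hl => hXY l (hUX hl)
    · intro i hi j hj hij
      rw [Finset.mem_coe] at hi hj
      rw [hι i hi, hι j hj] at hij
      have := e.injective (Subtype.ext hij)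
      exact congrArg Subtype.val this
    · intro b hb
      rw [him]
      exact hV b (hUX hb)
  rcases le_total (V b₂).card (V b₁).card with h | h
  · exact fin (V b₁) (V b₂) (hVZ b₁ hb₁) (hVZ b₂ hb₂Z) (hV0 b₂ hb₂Z) hd h h12
  · exact fin (V b₂) (V b₁) (hVZ b₂ hb₂Z) (hVZ b₁ hb₁) (hV0 b₁ hb₁) hd' h h21

end

end Pool.Agent.GS
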