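import Pool.Agent.Helper36.GS.Nst
import Pool.Agent.Helper64.GS.Scale

/-!
# GS, block C: from the points over extensions of `F` to the bad data over `F`
-/

set_option autoImplicit false

namespace Pool.Agent.GS

open MvPolynomial

universe u

/-- the linear form `ℓ` in the variables of the point `σ` -/
noncomputable def lf {F : Type u} [Field F] {N r : ℕ} (ℓ : Fin (N + 1) → F) (σ : Fin r) :
    MvPolynomial (Fin r × Fin (N + 1)) F := ∑ j, C (ℓ j) * X (σ, j)

theorem aeval_lf {F K : Type u} [Field F] [Field K] [Algebra F K] {N r : ℕ} (ℓ : Fin (N + 1) → F) (σ : Fin r)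
    (t : Fin r × Fin (N + 1) → K) : aeval t (lf ℓ σ) = lin ℓ fun j => t (σ, j) := by
  unfold lf lin
  rw [map_sum]
  refine Finset.sum_congr rfl fun j _ => ?_
  rw [map_mul, aeval_C, aeval_X]

theorem lin_self {F : Type u} [Field F] {N : ℕ} (ℓ y : Fin (N + 1) → F) : lin ℓ y = dt ℓ y := rfl

theorem pts {F : Type u} [Field F] [IsAlgClosed F] {N q r : ℕ} (I : Set (MvPolynomial (Fin (N + 1)) F))
    (hI : Homog I) (ℓ : Fin q → Fin (N + 1) → F) (σ₀ : Fin r) (A U : Finset (Fin q)) (ι : Fin q → Fin q)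
    (c : Fin q → F) (hc : ∀ m ∈ U, c (ι m) ≠ 0)
    (h : ∀ b ∈ U, ∃ (K : Type u) (_ : Field K) (_ : Algebra F K) (y : Fin r → Fin (N + 1) → K) (lam : K),
      lam ≠ 0 ∧ (∀ σ, OnX I (y σ)) ∧ (∀ h ∈ insert b A, lin (ℓ h) (y σ₀) = 0) ∧
      (∀ g, (∀ j ∈ U, g ≠ ι j) → uu ℓ y g = 0) ∧
      ∀ m ∈ U, uu ℓ y (ι m) = lam * algebraMap F K (c (ι m))) :
    Bad I r A U ι ℓ := by
  classical
  have key : ∀ b ∈ U, ∃ x : Fin r → Fin (N + 1) → F, (∀ σ, OnX I (x σ)) ∧
      (∀ h ∈ insert b A, dt (ℓ h) (x σ₀) = 0) ∧ (∀ g, (∀ j ∈ U, g ≠ ι j) → ∏ σ, dt (ℓ g) (x σ) = 0) ∧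
      ∀ m ∈ U, ∏ σ, dt (ℓ (ι m)) (x σ) = c (ι m) := by
    intro b hb
    obtain ⟨K, _, _, y, lam, hlam, hX, hA, hg, hu⟩ := h b hb
    -- scale the point `σ₀`
    let s : Fin r → K := fun σ => if σ = σ₀ then lam⁻¹ else 1
    let t : Fin r × Fin (N + 1) → K := fun p => s p.1 * y p.1 p.2
    have hlin : ∀ (i : Fin q) (σ : Fin r), lin (ℓ i) (fun j => t (σ, j)) = s σ * lin (ℓ i) (y σ) := by
      intro i σ
      unfold lin
      rw [Finset.mul_sum]
      refine Finset.sum_congr rfl fun j _ => ?_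
      show algebraMap F K (ℓ i j) * (s σ * y σ j) = _
      ring
    have hs : ∏ σ, s σ = lam⁻¹ := by
      rw [Finset.prod_eq_single σ₀ (fun σ _ hσ => if_neg hσ) (fun h => absurd (Finset.mem_univ _) h)]
      exact if_pos rfl
    have hprod : ∀ i : Fin q, aeval t (∏ σ : Fin r, lf (ℓ i) σ) = lam⁻¹ * uu ℓ y i := by
      intro i
      rw [map_prod, ← hs]
      unfold uu
      rw [← Finset.prod_mul_distrib]
      exact Finset.prod_congr rfl fun σ _ => by rw [aeval_lf, hlin]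
    obtain ⟨t', ht'⟩ := nst (F := F) t
    refine ⟨fun σ j => t' (σ, j), fun σ f hf => ?_, fun h hh => ?_, fun g hg' => ?_, fun m hm => ?_⟩
    · have h1 := ht' (rename (fun j => (σ, j)) f) (by
        rw [aeval_rename]
        obtain ⟨d, hd⟩ := hI f hf
        have h2 : (t ∘ fun j => (σ, j)) = fun j => s σ * y σ j := rfl
        rw [h2, Pool.Agent.Helper64.GS.aeval_scale hd, hX σ f hf, mul_zero])
      rw [aeval_rename] at h1
      exact h1
    · have h1 := ht' (lf (ℓ h) σ₀) (by rw [aeval_lf, hlin, hA h hh, mul_zero])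
      rw [aeval_lf] at h1
      exact h1
    · have h1 := ht' (∏ σ : Fin r, lf (ℓ g) σ) (by rw [hprod, hg g hg', mul_zero])
      rw [map_prod] at h1
      rw [← h1]
      exact Finset.prod_congr rfl fun σ _ => (aeval_lf (ℓ g) σ t').symm
    · have h1 := ht' (∏ σ : Fin r, lf (ℓ (ι m)) σ - C (c (ι m))) (by
        rw [map_sub, hprod, aeval_C, hu m hm, ← mul_assoc, inv_mul_cancel₀ hlam, one_mul, sub_self])
      rw [map_sub, map_prod, aeval_C, sub_eq_zero] at h1
      rw [show c (ι m) = algebraMap F F (c (ι m)) from rfl, ← h1]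
      exact Finset.prod_congr rfl fun σ _ => (aeval_lf (ℓ (ι m)) σ t').symm
  choose! x hx using key
  exact ⟨σ₀, x, c, fun i hi => (hx i hi).1, fun i hi => (hx i hi).2.1, fun i hi => (hx i hi).2.2.1,
    fun i hi => (hx i hi).2.2.2, hc⟩

end Pool.Agent.GS
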